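import Pool.Agent.Run7.h919.TF.Iface

/-!
# Piece AVR of project TF (helper919): the relation between the products of half systems
-/

set_option autoImplicit false

namespace Run7.h639.TF

open Finset Run7.h919.TF Pool.Agent.N992

variable {ι : Type} [Fintype ι] [DecidableEq ι] {n : ι → ℕ} [∀ i, NeZero (n i)]

/-- the proof of `Pool.Agent.N992.rel_closure` with the vanishing of the top component as a hypothesis -/
theorem rel_of_zero (hn : Adm n) (hco : Pairwise (fun i j => (n i).Coprime (n j)))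
    {χ : ∀ i, ZMod (n i) → ℤ} (hχ : ∀ i, IsChi (n i) (χ i))
    (s : (∀ i, ZMod (n i)) → ℤ) (hs : PiDist n s) (S : Finset ι)
    (hS : ∀ t, WW n χ s S S t = 0) :
    (fun t : (∀ i, ZMod (n i))ˣ => ∑ x ∈ QQ n S, s ((t : ∀ i, ZMod (n i)) * x)) ∈
      AddSubgroup.closure {f : (∀ i, ZMod (n i))ˣ → ℤ | ∃ T : Finset ι, T ⊂ S ∧
        f = fun t : (∀ i, ZMod (n i))ˣ => ∑ x ∈ QQ n T, s ((t : ∀ i, ZMod (n i)) * x)} := by
  have h1 : ∀ T' ∈ S.ssubsets, ∃ g ∈ AddSubgroup.closure
      {f | ∃ T : Finset ι, T ⊂ S ∧ f = FF n s T}, ∀ t, WW n χ s T' S t = 2 ^ S.card * g t := by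
    intro T' hT'
    rw [mem_ssubsets] at hT'
    obtain ⟨e, he, he2⟩ := exists_g hn hco hχ s hs T'
    obtain ⟨A, hA⟩ := WW_chain hn hco hχ s hs T' (S \ T') disjoint_sdiff
    rw [union_sdiff_of_subset hT'.1] at hA
    refine ⟨A • e, ?_, ?_⟩
    · refine AddSubgroup.zsmul_mem _ (AddSubgroup.closure_mono ?_ he) A
      rintro f ⟨T'', h, rfl⟩
      exact ⟨T'', lt_of_le_of_lt h hT', rfl⟩
    · intro t
      rw [hA t, ← he2 t, Pi.smul_apply, smul_eq_mul, card_sdiff_of_subset hT'.1]
      have h3 : S.card = (S.card - T'.card) + T'.card :=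
        (Nat.sub_add_cancel (card_le_card hT'.1)).symm
      have h4 : (2 : ℤ) ^ S.card = 2 ^ (S.card - T'.card) * 2 ^ T'.card := by
        rw [← pow_add, ← h3]
      rw [h4]
      ring
  choose! g hg hg2 using h1
  have h2 : (fun t : (∀ i, ZMod (n i))ˣ => ∑ x ∈ QQ n S, s ((t : ∀ i, ZMod (n i)) * x)) =
      ∑ T' ∈ S.ssubsets, g T' := by
    funext t
    have h5 := FF_expand hχ s S t
    rw [← Finset.sum_erase_add _ _ (mem_powerset_self S), hS t, add_zero] at h5
    have h6 : ∑ T' ∈ S.powerset.erase S, WW n χ s T' S t =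
        2 ^ S.card * (∑ T' ∈ S.ssubsets, g T') t := by
      rw [Finset.sum_apply, mul_sum, Finset.ssubsets]
      refine sum_congr rfl ?_
      intro T' hT'
      exact hg2 T' hT' t
    rw [h6] at h5
    have h7 : (2 : ℤ) ^ S.card ≠ 0 := pow_ne_zero _ (by norm_num)
    exact mul_left_cancel₀ h7 h5
  rw [h2]
  exact AddSubgroup.sum_mem _ (fun T' hT' => hg T' hT')

theorem t_AVR : S_AVR := by
  intro ι _ _ n _ hn hco s hs u hu S B hB hBS hpar
  have hc : ∀ i, ∃ χ : ZMod (n i) → ℤ, IsChi (n i) χ := fun i => exists_chi (n i) (hn i)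
  choose χ hχ using hc
  refine rel_of_zero hn hco hχ s hs S fun t => ?_
  rcases hpar with he | ho
  · exact WW_even hχ hs subset_rfl he t
  · have h1 := WW_twist hχ s (T' := S) (T := S) subset_rfl u t
    have h2 : ∑ x ∈ GG n S, (∏ i ∈ S, χ i (x i)) *
        s ((u : ∀ i, ZMod (n i)) * ((t : ∀ i, ZMod (n i)) * x)) = WW n χ s S S t := by
      unfold WW
      refine sum_congr rfl fun x _ => ?_
      rw [hu]
    have h3 : ∏ i ∈ S, χ i ((u : ∀ i, ZMod (n i)) i) = -1 := by
      have h4 : ∀ i ∈ S, χ i ((u : ∀ i, ZMod (n i)) i) = if i ∈ B then (-1 : ℤ) else 1 := by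
        intro i hi
        have hun := isUnit_apply n u i
        by_cases hiB : i ∈ B
        · rw [if_pos hiB]
          rcases (hχ i).val _ hun with h | h
          · exact absurd ((mem_Hf _).1 (((hχ i).mem _ hun).2 h)).2 ((hBS i hi).1 hiB)
          · exact h
        · rw [if_neg hiB]
          have hsq : IsSquare ((u : ∀ i, ZMod (n i)) i) := by
            by_contra hcon
            exact hiB ((hBS i hi).2 hcon)
          exact ((hχ i).mem _ hun).1 ((mem_Hf _).2 ⟨hun, hsq⟩)
      rw [prod_congr rfl h4, Finset.prod_ite_mem, inter_eq_right.2 hB, prod_const,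
        ho.neg_one_pow]
    rw [h2, h3] at h1
    linarith

end Run7.h639.TF
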