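import Pool.Agent.Run7.h919.TF.Iface

/-! The piece `EXH` of project TF. -/

set_option autoImplicit false

namespace Run7.h639.TF

open Finset Run7.h919.TF Pool.Agent.H916R2 Pool.Agent.H916T Pool.Agent.H916U Pool.Agent.H916Z Pool.Agent.H916Q Pool.Agent.N992

lemma modu_lift {k m0 m : ℕ} [NeZero m0] [NeZero m] (h : k * m0 = m) {s : Multiset (ZMod m0)}
    (hs : Modu m0 s) : Modu m (s.map (iota k : ZMod m0 → ZMod m)) := by
  obtain ⟨L, r, h1, h2, rfl⟩ := hs
  refine ⟨L.map (fun b => b.map (iota k : ZMod m0 → ZMod m)), r.map (iota k), ?_, ?_, ?_⟩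
  · intro b hb
    obtain ⟨b', hb', rfl⟩ := List.mem_map.mp hb
    exact (h1 b' hb').lift h
  · intro a ha
    obtain ⟨a', ha', rfl⟩ := Multiset.mem_map.mp ha
    have h3 := iota_natMul h 12 a'
    have h4 := h2 a' ha'
    push_cast at h3
    rw [← h3, h4, iota_zero]
  · rw [Multiset.map_add]
    congr 1
    clear h1
    induction L with
    | nil => simp
    | cons b L ih => rw [List.sum_cons, Multiset.map_add, ih, List.map_cons, List.sum_cons]

lemma modularTate_lift {p k m0 m : ℕ} [NeZero m0] [NeZero m] (h : k * m0 = m) (hpm : p.Coprime m)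
    {s : Multiset (ZMod m0)} (hs : ModularTate p m0 s) :
    ModularTate p m (s.map (iota k : ZMod m0 → ZMod m)) :=
  ⟨Pool.Agent.H916Y.isTate_iota h hpm hs.1, modu_lift h hs.2⟩

lemma modularTate_add {p m : ℕ} [NeZero m] (hpm : p.Coprime m) {s t : Multiset (ZMod m)}
    (hs : ModularTate p m s) (ht : ModularTate p m t) : ModularTate p m (s + t) :=
  ⟨Pool.Agent.H916Y.isTate_add hpm hs.1 ht.1, hs.2.add ht.2⟩

theorem t_EXH : S_EXN → S_EXH := by
  intro hEXN p m _ hpm S hS h3 hex hcase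
  have hdvd : (∏ q ∈ S, q) ∣ m :=
    (Finset.prod_dvd_prod_of_subset S m.primeFactors (fun q => q) hS).trans
      (Nat.prod_primeFactors_dvd m)
  have hne : (∏ q ∈ S, q) ≠ 0 := by
    intro h
    rw [h] at hdvd
    exact NeZero.ne m (Nat.eq_zero_of_zero_dvd hdvd)
  have : NeZero (∏ q ∈ S, q) := ⟨hne⟩
  obtain ⟨k, hk⟩ := hdvd
  have hkm : k * (∏ q ∈ S, q) = m := by rw [hk]; ring
  have hpS : p.Coprime (∏ q ∈ S, q) :=
    Nat.Coprime.coprime_dvd_right (Dvd.intro_left _ hkm) hpm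
  obtain ⟨h, hh, hodd, hV⟩ := hEXN p S
    (fun q hq => ⟨Nat.prime_of_mem_primeFactors (hS hq), h3 q hq⟩) hpS hex hcase
  refine ⟨h.map (iota k : ZMod (∏ q ∈ S, q) → ZMod m), modularTate_lift hkm hpm hh, ?_, ?_⟩
  · rw [Pool.Agent.H916Y.countP_iota hkm]; exact hodd
  · intro V hVodd
    rw [Pool.Agent.H916Y.countP_iota hkm] at hVodd
    exact hV V hVodd

end Run7.h639.TF
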