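import Pool.Agent.Run7.h639.TF.EXH

/-! The piece `REC` of project TF. -/

set_option autoImplicit false

namespace Run7.h639.TF

open Finset Run7.h919.TF Pool.Agent.H916R2 Pool.Agent.H916T Pool.Agent.H916U Pool.Agent.H916Z Pool.Agent.H916Q Pool.Agent.N992

theorem t_REC : S_PAR → S_EXH → S_REC := by
  intro hPAR hEXH p m _ hpm hdeg s hs
  classical
  obtain ⟨P, hP⟩ : ∃ P : Finset (Finset ℕ), ∀ S, S ∈ P ↔
      (S ⊆ m.primeFactors ∧ 2 ∉ S ∧ ∃ q ∈ S, jacobiSym p q = 1) :=
    ⟨m.primeFactors.powerset.filter (fun S => 2 ∉ S ∧ ∃ q ∈ S, jacobiSym p q = 1), fun S => by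
      rw [mem_filter, mem_powerset]⟩
  have hrels : Rel0 p s := fun t => hs.W_sum hpm t
  have key : ∀ n : ℕ, ∀ F : Finset (Finset ℕ), F.card = n → F ⊆ P →
      (∀ S ∈ F, ∀ V ∈ P, S ⊆ V → V ∈ F) →
      ∃ h : Multiset (ZMod m), (h = 0 ∨ ModularTate p m h) ∧
        ∀ S ∈ F, Even ((s + h).countP (Supp S)) := by
    intro n
    induction n with
    | zero =>
      intro F hF _ _
      rw [card_eq_zero] at hF
      subst hF
      exact ⟨0, Or.inl rfl, fun S hS => absurd hS (notMem_empty S)⟩
    | succ n ih =>
      intro F hF hFP hup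
      have hne : F.Nonempty := by
        rw [← card_pos]; omega
      obtain ⟨S, hSF, hmin⟩ := F.exists_min_image Finset.card hne
      have hup' : ∀ S' ∈ F.erase S, ∀ V ∈ P, S' ⊆ V → V ∈ F.erase S := by
        intro S' hS' V hV hsub
        rw [mem_erase] at hS' ⊢
        refine ⟨?_, hup S' hS'.2 V hV hsub⟩
        rintro rfl
        have hlt : S'.card < V.card := card_lt_card (hsub.ssubset_of_ne hS'.1)
        have := hmin S' hS'.2
        omega
      obtain ⟨h', hh', hev⟩ := ih (F.erase S) (by rw [card_erase_of_mem hSF, hF]; rfl)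
        ((erase_subset _ _).trans hFP) hup'
      obtain ⟨hSm, h2S, hex⟩ := (hP S).mp (hFP hSF)
      by_cases he : Even ((s + h').countP (Supp S))
      · refine ⟨h', hh', fun V hV => ?_⟩
        by_cases hVS : V = S
        · rw [hVS]; exact he
        · exact hev V (mem_erase.mpr ⟨hVS, hV⟩)
      · have h3 : ∀ q ∈ S, q % 4 = 3 := by
          intro q hq
          rcases hdeg.1 q (Nat.prime_of_mem_primeFactors (hSm hq))
            (Nat.dvd_of_mem_primeFactors (hSm hq)) with h | h
          · rw [h] at hq; exact absurd hq h2S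
          · exact h
        have hrel' : Rel0 p h' := by
          rcases hh' with rfl | hh'
          · intro t; simp
          · exact fun t => hh'.1.W_sum hpm t
        have hcase : Even S.card ∨ jacobiSym p (∏ q ∈ S, q) = -1 := by
          by_contra hcon
          rw [not_or] at hcon
          obtain ⟨hodd, hj⟩ := hcon
          rw [Nat.not_even_iff_odd] at hodd
          have hdvd : (∏ q ∈ S, q) ∣ m :=
            (Finset.prod_dvd_prod_of_subset S m.primeFactors (fun q => q) hSm).trans
              (Nat.prod_primeFactors_dvd m)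
          have hcop : Int.gcd (p : ℤ) ((∏ q ∈ S, q : ℕ) : ℤ) = 1 := by
            rw [Int.gcd_natCast_natCast]
            exact Nat.Coprime.coprime_dvd_right hdvd hpm
          have hj1 : jacobiSym p (∏ q ∈ S, q) = 1 :=
            (jacobiSym.eq_one_or_neg_one hcop).resolve_right hj
          apply he
          refine hPAR p m hpm hdeg (s + h') (hrels.add hrel') S hSm h2S hodd hj1 ?_
          intro V hV hSV h2V
          obtain ⟨q, hq, hq1⟩ := hex
          have hVP : V ∈ P := (hP V).mpr ⟨hV, h2V, q, hSV.subset hq, hq1⟩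
          exact hev V (mem_erase.mpr ⟨hSV.ne', hup S hSF V hVP hSV.subset⟩)
        obtain ⟨h, hh, hodd, hVs⟩ := hEXH p m hpm S hSm h3 hex hcase
        refine ⟨h' + h, Or.inr ?_, ?_⟩
        · rcases hh' with rfl | hh'
          · rw [zero_add]; exact hh
          · exact modularTate_add hpm hh' hh
        · intro V hV
          rw [← add_assoc, Multiset.countP_add]
          by_cases hVS : V = S
          · subst hVS
            exact (Nat.not_even_iff_odd.mp he).add_odd (Nat.not_even_iff_odd.mp hodd)
          · have h1 := hev V (mem_erase.mpr ⟨hVS, hV⟩)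
            have h2 : Even (h.countP (Supp V)) := by
              by_contra hc
              have hsub := hVs V hc
              have hlt : V.card < S.card := card_lt_card (hsub.ssubset_of_ne hVS)
              have := hmin V hV
              omega
            exact h1.add h2
  obtain ⟨h, hh, hev⟩ := key P.card P rfl (Subset.refl P) (fun S _ V hV _ => hV)
  exact ⟨h, hh, fun S hS h2 hex => hev S ((hP S).mpr ⟨hS, h2, hex⟩)⟩

end Run7.h639.TF
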